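import Pool.Agent.W181.RT.Props

/-!
# The derivations `L_a` of the cohomology ring of the Grassmannian
-/

set_option autoImplicit false

namespace Pool.Agent.W428.RT

open Polynomial Pool.Agent.W181.RT

variable (ℓ k a : ℕ)

/-- `P_a = ∑ q_{a+j-1} z^j` -/
noncomputable def Pa : Polynomial (RR ℓ k) := X * (divX^[a] (PP ℓ k))

theorem coeff_divX_iter {R : Type} [CommRing R] (f : Polynomial R) (a n : ℕ) :
    (divX^[a] f).coeff n = f.coeff (a + n) := by
  induction a generalizing n with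
  | zero => simp
  | succ a ih =>
    rw [Function.iterate_succ_apply', coeff_divX, ih]
    congr 1
    omega

theorem coeff_Pa_zero : (Pa ℓ k a).coeff 0 = 0 := by
  unfold Pa
  rw [mul_coeff_zero, coeff_X_zero, zero_mul]

theorem coeff_Pa_succ (n : ℕ) : (Pa ℓ k a).coeff (n + 1) = qq ℓ k (a + n) := by
  unfold Pa qq
  rw [coeff_X_mul, coeff_divX_iter]

/-- the coefficients of `W * P_a` beyond the degree of `W` vanish -/
theorem coeff_mul_Pa (W : Polynomial (RR ℓ k)) (m : ℕ) (hW : ∀ n, m < n → W.coeff n = 0)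
    (hWP : ∀ n, m ≤ n → (W * PP ℓ k).coeff n = 0) (n : ℕ) (hn : m < n) :
    (W * Pa ℓ k a).coeff n = 0 := by
  obtain ⟨n, rfl⟩ : ∃ n', n = n' + 1 := ⟨n - 1, by omega⟩
  have h1 : W * Pa ℓ k a = X * (W * (divX^[a] (PP ℓ k))) := by
    unfold Pa; ring
  rw [h1, coeff_X_mul]
  have h2 : (X : Polynomial (RR ℓ k)) ^ a * (divX^[a] (PP ℓ k)) +
      ∑ b ∈ Finset.range a, C ((PP ℓ k).coeff b) * X ^ b = PP ℓ k := by
    ext i
    rw [coeff_add, coeff_X_pow_mul', finsetSum_coeff]
    simp only [coeff_C_mul, coeff_X_pow]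
    by_cases hi : a ≤ i
    · rw [if_pos hi, coeff_divX_iter, Finset.sum_eq_zero, add_zero]
      · congr 1; omega
      · intro b hb
        rw [Finset.mem_range] at hb
        rw [if_neg (by omega), mul_zero]
    · rw [if_neg hi, zero_add, Finset.sum_eq_single i]
      · simp
      · intro b _ hb
        rw [if_neg (Ne.symm hb), mul_zero]
      · intro h
        exact absurd (Finset.mem_range.2 (by omega)) h
  have h3 := hWP (n + a) (by omega)
  rw [← h2, mul_add, coeff_add] at h3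
  have h4 : W * (X ^ a * (divX^[a] (PP ℓ k))) = (W * (divX^[a] (PP ℓ k))) * X ^ a := by ring
  rw [h4, coeff_mul_X_pow] at h3
  have h5 : (W * ∑ b ∈ Finset.range a, C ((PP ℓ k).coeff b) * X ^ b).coeff (n + a) = 0 := by
    rw [Finset.mul_sum, finsetSum_coeff]
    apply Finset.sum_eq_zero
    intro b hb
    rw [Finset.mem_range] at hb
    have h6 : W * (C ((PP ℓ k).coeff b) * X ^ b) = C ((PP ℓ k).coeff b) * W * X ^ b := by ring
    rw [h6, coeff_mul_X_pow', if_pos (by omega), coeff_C_mul, hW _ (by omega), mul_zero]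
  rw [h5, add_zero] at h3
  exact h3

theorem coeff_TPa (n : ℕ) (hn : k < n) : (TT ℓ k * Pa ℓ k a).coeff n = 0 := by
  refine coeff_mul_Pa ℓ k a _ k (TT_coeff_big ℓ k) ?_ n hn
  intro n hn
  rw [TP, coeff_derivative, TT_coeff_big ℓ k _ (by omega), zero_mul]

theorem coeff_SPa (n : ℕ) (hn : ℓ < n) : (SS ℓ k * Pa ℓ k a).coeff n = 0 := by
  refine coeff_mul_Pa ℓ k a _ ℓ (SS_coeff_big ℓ k) ?_ n hn
  intro n hn
  rw [SP, coeff_neg, coeff_derivative, SS_coeff_big ℓ k _ (by omega), zero_mul, neg_zero]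

theorem aux {R : Type} [CommRing R] (n : ℕ) (x : R) : ((-1 : R) * -1) ^ n * x = x := by simp

theorem smulA (p : AA ℓ k) (x : RR ℓ k) : p • x = Ideal.Quotient.mk (II ℓ k) p * x := by
  obtain ⟨q, rfl⟩ := Ideal.Quotient.mk_surjective x
  rfl

theorem smulQ (c : ℚ) (x : RR ℓ k) : c • x = Ideal.Quotient.mk (II ℓ k) (MvPolynomial.C c) * x := by
  obtain ⟨q, rfl⟩ := Ideal.Quotient.mk_surjective x
  rw [← map_mul, ← MvPolynomial.smul_eq_C_mul]
  rfl

/-- the derivation upstairs -/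
noncomputable def d0 : Derivation ℚ (AA ℓ k) (RR ℓ k) :=
  MvPolynomial.mkDerivation ℚ (Sum.elim
    (fun i : Fin ℓ => (-1 : RR ℓ k) ^ (i.val + 1) * (-(SS ℓ k * Pa ℓ k a).coeff (i.val + 1)))
    (fun j : Fin k => (TT ℓ k * Pa ℓ k a).coeff (j.val + 1)))

theorem d0_T (n : ℕ) : d0 ℓ k a ((Tg ℓ k).coeff n) = (TT ℓ k * Pa ℓ k a).coeff n := by
  rcases Nat.eq_zero_or_pos n with h | h
  · subst h
    rw [coeff_Tg_zero, Derivation.map_one_eq_zero, mul_coeff_zero, coeff_Pa_zero, mul_zero]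
  · by_cases hk : k < n
    · rw [Tg_coeff_big ℓ k n hk, map_zero, coeff_TPa ℓ k a n hk]
    · obtain ⟨n, rfl⟩ : ∃ n', n = n' + 1 := ⟨n - 1, by omega⟩
      have h1 : (Tg ℓ k).coeff (n + 1) = MvPolynomial.X (Sum.inr ⟨n, by omega⟩) := by
        rw [Tg, coeff_add, coeff_one, if_neg (by omega), zero_add, finsetSum_coeff,
          Finset.sum_eq_single (⟨n, by omega⟩ : Fin k)]
        · rw [coeff_C_mul, coeff_X_pow, if_pos rfl, mul_one]
        · intro b _ hb
          rw [coeff_C_mul, coeff_X_pow, if_neg, mul_zero]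
          intro h2
          apply hb
          apply Fin.ext
          simp only
          omega
        · intro h2
          exact absurd (Finset.mem_univ _) h2
      rw [h1, d0, MvPolynomial.mkDerivation_X]
      rfl

theorem d0_S (n : ℕ) : d0 ℓ k a ((Sg ℓ k).coeff n) = (-(SS ℓ k * Pa ℓ k a)).coeff n := by
  rw [coeff_neg]
  rcases Nat.eq_zero_or_pos n with h | h
  · subst h
    rw [coeff_Sg_zero, Derivation.map_one_eq_zero, mul_coeff_zero, coeff_Pa_zero, mul_zero,
      neg_zero]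
  · by_cases hk : ℓ < n
    · rw [Sg_coeff_big ℓ k n hk, map_zero, coeff_SPa ℓ k a n hk, neg_zero]
    · obtain ⟨n, rfl⟩ : ∃ n', n = n' + 1 := ⟨n - 1, by omega⟩
      have h1 : (Sg ℓ k).coeff (n + 1) =
          ((-1 : ℚ) ^ (n + 1)) • MvPolynomial.X (Sum.inl ⟨n, by omega⟩) := by
        rw [Sg, coeff_add, coeff_one, if_neg (by omega), zero_add, finsetSum_coeff,
          Finset.sum_eq_single (⟨n, by omega⟩ : Fin ℓ)]
        · rw [coeff_C_mul, coeff_X_pow, if_pos rfl, mul_one, MvPolynomial.smul_eq_C_mul]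
          simp
        · intro b _ hb
          rw [coeff_C_mul, coeff_X_pow, if_neg, mul_zero]
          intro h2
          apply hb
          apply Fin.ext
          simp only
          omega
        · intro h2
          exact absurd (Finset.mem_univ _) h2
      rw [h1, Derivation.map_smul, d0, MvPolynomial.mkDerivation_X, Sum.elim_inl]
      rw [smulQ, map_pow, map_pow, map_neg, map_neg, map_one, map_one, ← mul_assoc, ← mul_pow]
      exact aux (n + 1) (-(SS ℓ k * Pa ℓ k a).coeff (n + 1))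

theorem d0_mul (f g : Polynomial (AA ℓ k)) (F G : Polynomial (RR ℓ k))
    (hf : ∀ n, d0 ℓ k a (f.coeff n) = F.coeff n) (hg : ∀ n, d0 ℓ k a (g.coeff n) = G.coeff n)
    (n : ℕ) : d0 ℓ k a ((f * g).coeff n) =
      (f.map (Ideal.Quotient.mk (II ℓ k)) * G + F * g.map (Ideal.Quotient.mk (II ℓ k))).coeff n := by
  rw [coeff_mul, map_sum, coeff_add, coeff_mul, coeff_mul, ← Finset.sum_add_distrib]
  apply Finset.sum_congr rfl
  intro x _
  rw [Derivation.leibniz, hf, hg, coeff_map, coeff_map, smulA, smulA]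
  ring

theorem d0_II (p : AA ℓ k) (hp : p ∈ II ℓ k) : d0 ℓ k a p = 0 := by
  unfold II at hp
  induction hp using Submodule.span_induction with
  | mem x hx =>
    obtain ⟨n, hn, rfl⟩ := hx
    rw [d0_mul ℓ k a _ _ _ _ (d0_S ℓ k a) (d0_T ℓ k a)]
    have h1 : (Sg ℓ k).map (Ideal.Quotient.mk (II ℓ k)) * (TT ℓ k * Pa ℓ k a) +
        -(SS ℓ k * Pa ℓ k a) * (Tg ℓ k).map (Ideal.Quotient.mk (II ℓ k)) = 0 := by
      change SS ℓ k * (TT ℓ k * Pa ℓ k a) + -(SS ℓ k * Pa ℓ k a) * TT ℓ k = 0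
      ring
    rw [h1, coeff_zero]
  | zero => rw [map_zero]
  | add x y _ _ hx hy => rw [map_add, hx, hy, add_zero]
  | smul c x hx' hx =>
    have hm : x ∈ II ℓ k := hx'
    rw [smul_eq_mul, Derivation.leibniz, hx, smul_zero, zero_add, smulA,
      Ideal.Quotient.eq_zero_iff_mem.2 hm, zero_mul]

/-- the function downstairs -/
noncomputable def d1 (x : RR ℓ k) : RR ℓ k :=
  d0 ℓ k a (Function.surjInv (Ideal.Quotient.mk_surjective (I := II ℓ k)) x)

theorem d1_mk (p : AA ℓ k) : d1 ℓ k a (Ideal.Quotient.mk (II ℓ k) p) = d0 ℓ k a p := by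
  unfold d1
  have h1 := Function.surjInv_eq (Ideal.Quotient.mk_surjective (I := II ℓ k))
    (Ideal.Quotient.mk (II ℓ k) p)
  rw [Ideal.Quotient.mk_eq_mk_iff_sub_mem] at h1
  have h2 := d0_II ℓ k a _ h1
  rw [map_sub, sub_eq_zero] at h2
  exact h2

/-- the derivation downstairs -/
noncomputable def dd : Derivation ℚ (RR ℓ k) (RR ℓ k) :=
  Derivation.mk'
    { toFun := d1 ℓ k a
      map_add' := by
        intro x y
        obtain ⟨p, rfl⟩ := Ideal.Quotient.mk_surjective x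
        obtain ⟨q, rfl⟩ := Ideal.Quotient.mk_surjective y
        rw [← map_add, d1_mk, d1_mk, d1_mk, map_add]
      map_smul' := by
        intro c x
        obtain ⟨p, rfl⟩ := Ideal.Quotient.mk_surjective x
        have h1 : c • (Ideal.Quotient.mk (II ℓ k) p) = Ideal.Quotient.mk (II ℓ k) (c • p) := rfl
        rw [h1, d1_mk, d1_mk, Derivation.map_smul]
        rfl }
    (by
      intro x y
      obtain ⟨p, rfl⟩ := Ideal.Quotient.mk_surjective x
      obtain ⟨q, rfl⟩ := Ideal.Quotient.mk_surjective y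
      change d1 ℓ k a _ = _ • d1 ℓ k a _ + _ • d1 ℓ k a _
      rw [← map_mul, d1_mk, d1_mk, d1_mk, Derivation.leibniz, smulA, smulA, smul_eq_mul,
        smul_eq_mul])

theorem dd_mk (p : AA ℓ k) : dd ℓ k a (Ideal.Quotient.mk (II ℓ k) p) = d0 ℓ k a p :=
  d1_mk ℓ k a p

theorem dd_mul (f g F G : Polynomial (RR ℓ k))
    (hf : ∀ n, dd ℓ k a (f.coeff n) = F.coeff n) (hg : ∀ n, dd ℓ k a (g.coeff n) = G.coeff n)
    (n : ℕ) : dd ℓ k a ((f * g).coeff n) = (f * G + F * g).coeff n := by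
  rw [coeff_mul, map_sum, coeff_add, coeff_mul, coeff_mul, ← Finset.sum_add_distrib]
  apply Finset.sum_congr rfl
  intro x _
  rw [Derivation.leibniz, hf, hg, smul_eq_mul, smul_eq_mul]
  ring

theorem t_DER : S_DER := by
  intro ℓ k a
  refine ⟨dd ℓ k a, fun c => ?_⟩
  have hT : ∀ n, dd ℓ k a ((TT ℓ k).coeff n) = (TT ℓ k * Pa ℓ k a).coeff n := by
    intro n
    rw [TT, coeff_map, dd_mk, d0_T]
    rfl
  have hS : ∀ n, dd ℓ k a ((SS ℓ k).coeff n) = (-(SS ℓ k * Pa ℓ k a)).coeff n := by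
    intro n
    rw [SS, coeff_map, dd_mk, d0_S]
    rfl
  have hT' : ∀ n, dd ℓ k a ((derivative (TT ℓ k)).coeff n) =
      (derivative (TT ℓ k * Pa ℓ k a)).coeff n := by
    intro n
    have h1 : ((n : RR ℓ k) + 1) = ((n + 1 : ℕ) : RR ℓ k) := by push_cast; ring
    rw [coeff_derivative, coeff_derivative, ← hT, h1, Derivation.leibniz,
      Derivation.map_natCast, smul_zero, zero_add, smul_eq_mul, mul_comm]
  unfold qq PP
  rw [dd_mul ℓ k a _ _ _ _ hT' hS]
  have h2 : derivative (TT ℓ k) * (-(SS ℓ k * Pa ℓ k a)) +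
      derivative (TT ℓ k * Pa ℓ k a) * SS ℓ k = derivative (Pa ℓ k a) := by
    rw [derivative_mul]
    linear_combination (derivative (Pa ℓ k a)) * ST_one ℓ k
  rw [h2, coeff_derivative, coeff_Pa_succ, mul_comm]
  rfl

end Pool.Agent.W428.RT
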